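import Mathlib

/-! Integral closure of an ideal, in the equational form, and its first properties. -/

namespace Pool.Agent.P.MP_e9da60_ag

open Polynomial Finset

variable {A B : Type*} [CommRing A] [CommRing B]

/-- `x` satisfies an equation of integral dependence over the ideal `J`. -/
def IntOver (J : Ideal A) (x : A) : Prop :=
  ∃ k : ℕ, 0 < k ∧ ∃ a : ℕ → A, (∀ j, a j ∈ J ^ j) ∧
    x ^ k + ∑ j ∈ range k, a (k - j) * x ^ j = 0

theorem isIntegral_of_intOver {J : Ideal A} {x : A} (h : IntOver J x) :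
    IsIntegral (reesAlgebra J) (monomial 1 x : A[X]) := by
  obtain ⟨k, hk, a, ha, h⟩ := h
  let c : ℕ → reesAlgebra J := fun j =>
    ⟨monomial j (a j), reesAlgebra.monomial_mem.mpr (ha j)⟩
  refine ⟨X ^ k + ∑ j ∈ range k, C (c (k - j)) * X ^ j, ?_, ?_⟩
  · refine monic_X_pow_add ?_
    refine (degree_sum_le _ _).trans_lt ?_
    rw [Finset.sup_lt_iff (by exact WithBot.bot_lt_coe k)]
    intro j hj
    exact (degree_C_mul_X_pow_le j _).trans_lt (by exact_mod_cast mem_range.mp hj)
  · rw [eval₂_add, eval₂_pow, eval₂_X, eval₂_finsetSum]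
    have : ∀ j ∈ range k, eval₂ (algebraMap (reesAlgebra J) A[X]) (monomial 1 x)
        (C (c (k - j)) * X ^ j) = monomial k (a (k - j) * x ^ j) := by
      intro j hj
      rw [eval₂_mul, eval₂_C, eval₂_pow, eval₂_X, monomial_pow]
      change monomial (k - j) (a (k - j)) * _ = _
      rw [monomial_mul_monomial]
      have := mem_range.mp hj
      congr 2
      omega
    rw [sum_congr rfl this, monomial_pow, one_mul, ← map_sum, ← map_add, h, map_zero]

theorem intOver_of_isIntegral {J : Ideal A} {x : A}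
    (h : IsIntegral (reesAlgebra J) (monomial 1 x : A[X])) : IntOver J x := by
  obtain ⟨p, hp, h⟩ := h
  have hq : (X * p).Monic := monic_X.mul hp
  have h' : eval₂ (algebraMap (reesAlgebra J) A[X]) (monomial 1 x) (X * p) = 0 := by
    rw [eval₂_mul, h, mul_zero]
  set q := X * p with hqdef
  rcases subsingleton_or_nontrivial A with hA | hA
  · exact ⟨1, one_pos, fun _ => 0, fun _ => zero_mem _, Subsingleton.elim _ _⟩
  have hk : 0 < q.natDegree := by
    rw [hqdef, monic_X.natDegree_mul hp, natDegree_X]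
    omega
  set k := q.natDegree with hkdef
  refine ⟨k, hk, fun i => (q.coeff (k - i)).1.coeff i,
    fun i => (mem_reesAlgebra_iff J _).mp (q.coeff (k - i)).2 i, ?_⟩
  rw [eval₂_eq_sum_range, sum_range_succ, ← hkdef] at h'
  have h1 : q.coeff k = 1 := hq
  have h2 := congrArg (fun f : A[X] => f.coeff k) h'
  simp only [h1, map_one, one_mul, monomial_pow, coeff_add, finsetSum_coeff, coeff_monomial,
    if_true, coeff_zero] at h2
  rw [add_comm, ← h2]
  congr 1
  refine sum_congr rfl fun j hj => ?_
  have hj' := mem_range.mp hj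
  have e1 : k - (k - j) = j := by omega
  have e2 : k = (k - j) + j := by omega
  simp only [e1]
  conv_rhs => rw [e2, coeff_mul_monomial]
  rfl

/-- The integral closure of an ideal. -/
def cl (J : Ideal A) : Ideal A where
  carrier := {x | IntOver J x}
  zero_mem' := ⟨1, one_pos, fun _ => 0, fun _ => zero_mem _, by simp⟩
  add_mem' := by
    intro x y hx hy
    refine intOver_of_isIntegral ?_
    rw [map_add]
    exact (isIntegral_of_intOver hx).add (isIntegral_of_intOver hy)
  smul_mem' := by
    intro r x hx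
    refine intOver_of_isIntegral ?_
    have : (monomial 1 (r • x) : A[X]) = algebraMap (reesAlgebra J) A[X]
        (algebraMap A (reesAlgebra J) r) * monomial 1 x := by
      rw [← IsScalarTower.algebraMap_apply, Polynomial.algebraMap_apply, Algebra.algebraMap_self,
        RingHom.id_apply, C_mul_monomial, smul_eq_mul]
    rw [this]
    exact isIntegral_algebraMap.mul (isIntegral_of_intOver hx)

theorem mem_cl {J : Ideal A} {x : A} : x ∈ cl J ↔ IntOver J x := Iff.rfl

theorem le_cl (J : Ideal A) : J ≤ cl J := by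
  intro x hx
  refine ⟨1, one_pos, fun j => if j = 1 then -x else 0, fun j => ?_, by simp⟩
  by_cases h : j = 1
  · subst h
    simpa using hx
  · simp [h]

theorem cl_mono {J K : Ideal A} (h : J ≤ K) : cl J ≤ cl K := by
  rintro x ⟨k, hk, a, ha, hx⟩
  exact ⟨k, hk, a, fun j => Ideal.pow_right_mono h j (ha j), hx⟩

theorem map_mem_cl (f : A →+* B) {J : Ideal A} {x : A} (h : x ∈ cl J) :
    f x ∈ cl (J.map f) := by
  obtain ⟨k, hk, a, ha, hx⟩ := h
  refine ⟨k, hk, fun j => f (a j), fun j => ?_, ?_⟩
  · rw [← Ideal.map_pow]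
    exact Ideal.mem_map_of_mem f (ha j)
  · have := congrArg f hx
    simpa [map_sum] using this

/-- Descent of integral dependence along a map under which ideals are contracted. -/
theorem mem_cl_of_map (f : A →+* B) (hf : ∀ K : Ideal A, (K.map f).comap f = K)
    {J : Ideal A} {x : A} (h : f x ∈ cl (J.map f)) : x ∈ cl J := by
  obtain ⟨k, hk, a, ha, hx⟩ := h
  let K : Ideal A :=
    { carrier := {y | ∃ b : ℕ → A, (∀ j, b j ∈ J ^ j) ∧ y = ∑ j ∈ range k, b (k - j) * x ^ j}
      zero_mem' := ⟨fun _ => 0, fun _ => zero_mem _, by simp⟩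
      add_mem' := by
        rintro _ _ ⟨b, hb, rfl⟩ ⟨c, hc, rfl⟩
        exact ⟨fun j => b j + c j, fun j => add_mem (hb j) (hc j), by
          simp [add_mul, sum_add_distrib]⟩
      smul_mem' := by
        rintro r _ ⟨b, hb, rfl⟩
        exact ⟨fun j => r * b j, fun j => Ideal.mul_mem_left _ _ (hb j), by
          simp [mul_sum, mul_assoc]⟩ }
  have h1 : f (-x ^ k) ∈ K.map f := by
    have : f (-x ^ k) = ∑ j ∈ range k, a (k - j) * f x ^ j := by
      rw [map_neg, map_pow]
      exact neg_eq_of_add_eq_zero_right hx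
    rw [this]
    refine sum_mem fun j hj => ?_
    have hle : J ^ (k - j) * Ideal.span {x ^ j} ≤ K := by
      refine Ideal.mul_le.mpr fun r hr s hs => ?_
      obtain ⟨c, rfl⟩ := Ideal.mem_span_singleton'.mp hs
      refine ⟨fun i => if i = k - j then c * r else 0, fun i => ?_, ?_⟩
      · by_cases h : i = k - j
        · subst h
          simpa using Ideal.mul_mem_left _ c hr
        · simp [h]
      · rw [sum_eq_single j]
        · simp only [if_true]
          ring
        · intro i hi hij
          have := mem_range.mp hi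
          have := mem_range.mp hj
          have h : k - i ≠ k - j := by omega
          simp [h]
        · intro h
          exact absurd hj h
    refine Ideal.map_mono hle ?_
    rw [Ideal.map_mul, Ideal.map_pow]
    refine Ideal.mul_mem_mul (ha _) ?_
    rw [← map_pow]
    exact Ideal.mem_map_of_mem f (Ideal.mem_span_singleton_self _)
  have h2 : -x ^ k ∈ K := by
    rw [← hf K]
    exact h1
  obtain ⟨b, hb, hb'⟩ := h2
  exact ⟨k, hk, b, hb, by rw [← hb']; ring⟩

theorem pow_le_pow_sup {J K W : Ideal A} (hK : K ≤ J ⊔ W) (j : ℕ) : K ^ j ≤ J ^ j ⊔ W := by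
  induction j with
  | zero => simp
  | succ j ih =>
    rw [pow_succ, pow_succ]
    refine (Ideal.mul_mono ih hK).trans ?_
    refine Ideal.mul_le.mpr fun r hr s hs => ?_
    obtain ⟨r1, hr1, r2, hr2, rfl⟩ := Submodule.mem_sup.mp hr
    obtain ⟨s1, hs1, s2, hs2, rfl⟩ := Submodule.mem_sup.mp hs
    have e : (r1 + r2) * (s1 + s2) = r1 * s1 + (r1 * s2 + r2 * (s1 + s2)) := by ring
    rw [e]
    exact Submodule.add_mem_sup (Ideal.mul_mem_mul hr1 hs1)
      (add_mem (Ideal.mul_mem_left _ _ hs2) (Ideal.mul_mem_right _ _ hr2))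

/-- An element killed by `w` which is integral over `J + (w)` is integral over `J`. -/
theorem mem_cl_of_mul_eq_zero {J K : Ideal A} {w x : A} (hw : w * x = 0)
    (hK : K ≤ J ⊔ Ideal.span {w}) (h : x ∈ cl K) : x ∈ cl J := by
  obtain ⟨k, hk, a, ha, hx⟩ := h
  have hpow := pow_le_pow_sup hK
  have hex : ∀ j, ∃ b ∈ J ^ j, a j * x = b * x := by
    intro j
    obtain ⟨b, hb, c, hc, e⟩ := Submodule.mem_sup.mp (hpow j (ha j))
    obtain ⟨d, rfl⟩ := Ideal.mem_span_singleton'.mp hc
    exact ⟨b, hb, by rw [← e, add_mul, mul_assoc, hw, mul_zero, add_zero]⟩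
  choose b hb hb' using hex
  refine ⟨k + 1, k.succ_pos, fun j => if j = k + 1 then 0 else b j, fun j => ?_, ?_⟩
  · by_cases h : j = k + 1
    · simp [h]
    · simpa [h] using hb j
  · rw [sum_range_succ']
    simp only [Nat.sub_zero, if_true, zero_mul, add_zero]
    have : ∀ j ∈ range k, (if k + 1 - (j + 1) = k + 1 then 0 else b (k + 1 - (j + 1))) *
        x ^ (j + 1) = a (k - j) * x ^ j * x := by
      intro j _
      have e : k + 1 - (j + 1) = k - j := by omega
      have h : k - j ≠ k + 1 := by omega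
      rw [e, if_neg h, pow_succ', ← mul_assoc, ← hb']
      ring
    rw [sum_congr rfl this, ← sum_mul, pow_succ, ← add_mul, hx, zero_mul]

/-- In a domain, `t ^ j * u` with `u` outside a prime containing `t` is not integral over
`(t ^ m)` when `j < m`. -/
theorem not_mem_cl_span_pow [IsDomain A] {N : Ideal A} [hN : N.IsPrime] {t u : A} (ht : t ∈ N)
    (ht0 : t ≠ 0) (hu : u ∉ N) {j m : ℕ} (hjm : j < m) :
    t ^ j * u ∉ cl (Ideal.span {t ^ m}) := by
  rintro ⟨k, hk, a, ha, hx⟩
  have hex : ∀ i, ∃ c, c * (t ^ m) ^ i = a i := by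
    intro i
    have := ha i
    rw [Ideal.span_singleton_pow] at this
    exact Ideal.mem_span_singleton'.mp this
  choose c hc using hex
  obtain ⟨r, rfl⟩ := Nat.exists_eq_add_of_lt hjm
  have h1 : (t ^ j) ^ k * (u ^ k + ∑ i ∈ range k, c (k - i) * (t ^ (r + 1)) ^ (k - i) * u ^ i) =
      0 := by
    rw [← hx, mul_add, mul_sum, mul_pow]
    congr 1
    refine sum_congr rfl fun i hi => ?_
    obtain ⟨l, rfl⟩ := Nat.exists_eq_add_of_le (mem_range.mp hi).le
    rw [← hc, Nat.add_sub_cancel_left]
    ring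
  have h2 := (mul_eq_zero.mp h1).resolve_left (pow_ne_zero _ (pow_ne_zero _ ht0))
  refine hu (hN.mem_of_pow_mem k ?_)
  rw [eq_neg_of_add_eq_zero_left h2]
  refine neg_mem (sum_mem fun i hi => ?_)
  refine Ideal.mul_mem_right _ _ (Ideal.mul_mem_left _ _ ?_)
  have := mem_range.mp hi
  exact Ideal.pow_mem_of_mem _ (Ideal.pow_mem_of_mem _ ht _ r.succ_pos) _ (by omega)

end Pool.Agent.P.MP_e9da60_ag
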