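import Mathlib

/-! The completion of a Noetherian local ring is Noetherian, and the ring is dense in it. -/

namespace Pool.Agent.P.MP_e9da60_ag

open IsLocalRing

variable (R : Type) [CommRing R] [IsNoetherianRing R] [IsLocalRing R]

theorem dense_compl (n : ℕ) (x : AdicCompletion (maximalIdeal R) R) :
    ∃ r : R, x - algebraMap R _ r ∈ maximalIdeal (AdicCompletion (maximalIdeal R) R) ^ n := by
  obtain ⟨r, hr⟩ := Submodule.Quotient.mk_surjective _ (AdicCompletion.eval _ R n x)
  refine ⟨r, ?_⟩
  rw [AdicCompletion.maximalIdeal_eq_map, ← Ideal.map_pow, ← Submodule.restrictScalars_mem R,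
    ← Ideal.smul_top_eq_map, AdicCompletion.pow_smul_top_eq_ker_eval
      (maximalIdeal R).fg_of_isNoetherianRing, LinearMap.mem_ker, map_sub, ← hr, sub_eq_zero]
  rfl

theorem noeth_compl : IsNoetherianRing (AdicCompletion (maximalIdeal R) R) := by
  obtain ⟨t, ht⟩ := (maximalIdeal R).fg_of_isNoetherianRing
  set S := AdicCompletion (maximalIdeal R) R
  let g : MvPolynomial t R →ₐ[R] S := MvPolynomial.aeval fun i => algebraMap R S i.1
  have hm : maximalIdeal S = Ideal.span (Set.range fun i : t => algebraMap R S i.1) := by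
    refine AdicCompletion.maximalIdeal_eq_map.trans
      ((congrArg (Ideal.map (algebraMap R S)) ht.symm).trans ?_)
    rw [Ideal.map_span]
    congr 1
    ext x
    simp
  have hg : (MvPolynomial.idealOfVars t R).map g = maximalIdeal S := by
    rw [hm, Ideal.map_span, ← Set.range_comp]
    congr 2
    funext i
    simp [g]
  have hle : ∀ n, MvPolynomial.idealOfVars t R ^ n ≤ (maximalIdeal S ^ n).comap g := by
    intro n
    rw [← Ideal.map_le_iff_le_comap, Ideal.map_pow, hg]
  let f : (n : ℕ) → MvPowerSeries t R →+* S ⧸ maximalIdeal S ^ n := fun n =>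
    (Ideal.quotientMap _ (g : MvPolynomial t R →+* S) (hle n)).comp
      (MvPowerSeries.truncTotalAlgHom t R n : MvPowerSeries t R →+* _)
  have hf0 : ∀ n p, f n p = Ideal.Quotient.mk _ (g (MvPowerSeries.truncTotal n p)) :=
    fun _ _ => rfl
  have hf : ∀ {m n : ℕ} (h : m ≤ n),
      (Ideal.Quotient.factorPow (maximalIdeal S) h).comp (f n) = f m := by
    intro m n h
    ext1 p
    rw [RingHom.comp_apply, hf0, hf0]
    refine Ideal.Quotient.eq.mpr ?_
    rw [← map_sub]
    exact hle m (MvPowerSeries.truncTotal_sub_truncTotal_mem_pow_idealOfVars h le_rfl p)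
  let F := IsAdicComplete.liftRingHom (maximalIdeal S) f hf
  have hF : ∀ p : MvPolynomial t R, F p = g p := by
    intro p
    rw [← sub_eq_zero]
    refine IsHausdorff.haus (I := maximalIdeal S) inferInstance _ fun n => ?_
    rw [SModEq.zero, smul_eq_mul, Ideal.mul_top, ← Ideal.Quotient.eq,
      IsAdicComplete.mk_liftRingHom]
    exact congrArg (Ideal.quotientMap _ (g : MvPolynomial t R →+* S) (hle n))
      ((MvPowerSeries.truncTotalAlgHom t R n).commutes p)
  have hI : (Ideal.span (Set.range MvPowerSeries.X) : Ideal (MvPowerSeries t R)).map F =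
      maximalIdeal S := by
    rw [hm, Ideal.map_span, ← Set.range_comp]
    congr 2
    funext i
    rw [Function.comp_apply, ← MvPolynomial.coe_X, hF]
    simp [g]
  refine isNoetherianRing_of_surjective (MvPowerSeries t R) S F ?_
  refine surjective_of_mk_map_comp_surjective (I := Ideal.span (Set.range MvPowerSeries.X)) F
    (haus := by rw [hI]; infer_instance) ?_
  intro x
  obtain ⟨x, rfl⟩ := Ideal.Quotient.mk_surjective x
  obtain ⟨r, hr⟩ := dense_compl R 1 x
  refine ⟨(MvPolynomial.C r : MvPolynomial t R), ?_⟩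
  rw [RingHom.comp_apply, hF, eq_comm, Ideal.Quotient.eq, hI]
  simpa [g] using hr

end Pool.Agent.P.MP_e9da60_ag
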