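import Pool.Agent.P.MP_e9da60_ag.Low

/-! The family of primary ideals attached to a minimal prime, and the two length estimates. -/

namespace Pool.Agent.P.MP_e9da60_ag

open Finset IsLocalRing

theorem exists_sop {D : Type} [CommRing D] [IsLocalRing D] [IsNoetherianRing D] [IsDomain D]
    {s : ℕ} (hdim : ringKrullDim D = s) {w : D} (hw : w ∈ maximalIdeal D) (hw0 : w ≠ 0) :
    ∃ (r : ℕ) (y : Fin r → D), r + 1 = s ∧ (∀ i, y i ∈ maximalIdeal D) ∧
      maximalIdeal D ≤ (Ideal.span (Set.range y) ⊔ Ideal.span {w}).radical := by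
  classical
  have hle : Ideal.span {w} ≤ maximalIdeal D := by rwa [Ideal.span_singleton_le_iff_mem]
  let π := Ideal.Quotient.mk (Ideal.span {w})
  have hπ : Function.Surjective π := Ideal.Quotient.mk_surjective
  have hp : ((maximalIdeal D).map π).IsPrime :=
    Ideal.map_isPrime_of_surjective hπ (by rwa [Ideal.mk_ker])
  obtain ⟨t, ht, hcard⟩ := ((maximalIdeal D).map π).exists_finset_card_eq_height_of_isNoetherianRing
  choose l hl using hπ
  let y : Fin t.card → D := fun i => l (t.equivFin.symm i)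
  have hy : ∀ i, y i ∈ maximalIdeal D := by
    intro i
    rw [← Ideal.mem_quotient_iff_mem hle]
    change π (l _) ∈ _
    rw [hl]
    exact ht.1.2 (Ideal.subset_span (t.equivFin.symm i).2)
  have hrad : maximalIdeal D ≤ (Ideal.span (Set.range y) ⊔ Ideal.span {w}).radical := by
    rw [Ideal.radical_eq_sInf]
    refine le_sInf fun q ⟨hq, hqp⟩ => ?_
    have hwq : Ideal.span {w} ≤ q := le_sup_right.trans hq
    have hq' : (q.map π).IsPrime :=
      Ideal.map_isPrime_of_surjective Ideal.Quotient.mk_surjective (by rwa [Ideal.mk_ker])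
    have h1 : Ideal.span (t : Set _) ≤ q.map π := by
      rw [Ideal.span_le]
      intro x hx
      rw [← hl x]
      refine Ideal.mem_map_of_mem _ (hq (Ideal.mem_sup_left (Ideal.subset_span ?_)))
      exact ⟨t.equivFin ⟨x, hx⟩, by simp [y]⟩
    have h2 := ht.2 ⟨hq', h1⟩ (Ideal.map_mono (le_maximalIdeal hqp.ne_top))
    intro x hx
    exact (Ideal.mem_quotient_iff_mem hwq).mp (h2 (Ideal.mem_map_of_mem _ hx))
  refine ⟨t.card, y, le_antisymm ?_ ?_, hy, hrad⟩
  · have h1 := ringKrullDim_quotient_succ_le_of_nonZeroDivisor (mem_nonZeroDivisors_of_ne_zero hw0)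
    have h2 := Ideal.height_le_ringKrullDim_of_ne_top hp.ne_top
    rw [← hcard] at h2
    have h3 := (add_le_add_left h2 1).trans h1
    rw [hdim] at h3
    exact_mod_cast h3
  · have h1 : maximalIdeal D ∈
        (Ideal.span ((insert w (univ.image y) : Finset D) : Set D)).minimalPrimes := by
      have e : Ideal.span ((insert w (univ.image y) : Finset D) : Set D) =
          Ideal.span (Set.range y) ⊔ Ideal.span {w} := by
        rw [coe_insert, Ideal.span_insert, coe_image, coe_univ, Set.image_univ, sup_comm]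
      rw [e]
      refine ⟨⟨inferInstance, sup_le ?_ hle⟩, fun q hq _ => ?_⟩
      · rw [Ideal.span_le]
        rintro _ ⟨i, rfl⟩
        exact hy i
      · exact hrad.trans ((Ideal.IsPrime.radical_le_iff hq.1).mpr hq.2)
    have h2 := Ideal.height_le_card_of_mem_minimalPrimes_span_finset h1
    have h3 : (insert w (univ.image y)).card ≤ t.card + 1 :=
      (card_insert_le _ _).trans (by simpa using card_image_le (s := univ) (f := y))
    rw [← maximalIdeal_height_eq_ringKrullDim] at hdim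
    have h4 : (maximalIdeal D).height = s := by exact_mod_cast hdim
    rw [h4] at h2
    exact le_trans (by exact_mod_cast h2) h3

theorem exists_killer {S : Type} [CommRing S] [IsNoetherianRing S] [IsReduced S] {P : Ideal S}
    (hP : P ∈ minimalPrimes S) : ∃ w, w ∉ P ∧ ∀ p ∈ P, w * p = 0 := by
  classical
  have hPp : P.IsPrime := hP.1.1
  have hfin := minimalPrimes.finite_of_isNoetherianRing S
  have hex : ∀ Q ∈ hfin.toFinset.erase P, ∃ x ∈ Q, x ∉ P := by
    intro Q hQ
    obtain ⟨h1, h2⟩ := mem_erase.mp hQ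
    have h3 := hfin.mem_toFinset.mp h2
    by_contra h
    push Not at h
    exact h1 (le_antisymm h (hP.2 h3.1 h))
  choose! x hx hx' using hex
  refine ⟨∏ Q ∈ hfin.toFinset.erase P, x Q, fun h => ?_, fun p hp => ?_⟩
  · obtain ⟨Q, hQ, h⟩ := (Ideal.IsPrime.prod_mem_iff).mp h
    exact hx' Q hQ h
  · have : (∏ Q ∈ hfin.toFinset.erase P, x Q) * p ∈ (⊥ : Ideal S).radical := by
      rw [← Ideal.sInf_minimalPrimes, Ideal.mem_sInf]
      intro Q hQ
      by_cases h : Q = P
      · exact Ideal.mul_mem_left _ _ (by rwa [h])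
      · have hQ' : Q ∈ hfin.toFinset.erase P := mem_erase.mpr ⟨h, hfin.mem_toFinset.mpr hQ⟩
        exact Ideal.mul_mem_right _ _ (Ideal.prod_mem _ hQ' (hx Q hQ'))
    obtain ⟨n, hn⟩ := this
    exact IsReduced.eq_zero _ ⟨n, hn⟩

theorem core {S : Type} [CommRing S] [IsNoetherianRing S] [IsLocalRing S] [IsReduced S]
    {P : Ideal S} (hP : P ∈ minimalPrimes S) {s : ℕ} (hs : 0 < s)
    (hdim : ringKrullDim (S ⧸ P) = s) :
    ∃ I : ℕ → Ideal S, (∀ k, (I k).radical = maximalIdeal S) ∧
      (∀ k₀ k, k₀ ≤ k → ∃ C : ℕ, ∀ n,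
        len (cl (I k ^ n)) ≤ len (cl (I k₀ ^ n)) + (C * n ^ s : ℕ)) ∧
      (∀ k₀, ∃ C : ℕ, ∀ k, k₀ ≤ k → ∀ m,
        len (cl (I k₀ ^ (s * m + 1))) + (k * m ^ s : ℕ) ≤
          len (cl (I k ^ (s * m + 1))) + (C * (s * m + 1) ^ s : ℕ)) := by
  classical
  have hPp : P.IsPrime := hP.1.1
  have hPm : P ≤ maximalIdeal S := le_maximalIdeal hPp.ne_top
  let π := Ideal.Quotient.mk P
  have hπ : Function.Surjective π := Ideal.Quotient.mk_surjective
  have : IsLocalRing (S ⧸ P) := IsLocalRing.of_surjective' π hπ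
  have hmax : ∀ x, π x ∈ maximalIdeal (S ⧸ P) ↔ x ∈ maximalIdeal S := by
    intro x
    rw [← map_maximalIdeal_of_surjective π hπ]
    exact Ideal.mem_quotient_iff_mem hPm
  obtain ⟨w₀, hw₀, hw₀'⟩ := exists_killer hP
  obtain ⟨v, hv, hvP⟩ : ∃ v ∈ maximalIdeal S, v ∉ P := by
    by_contra h
    push Not at h
    have h1 : maximalIdeal (S ⧸ P) = ⊥ := by
      rw [eq_bot_iff]
      intro x hx
      obtain ⟨x, rfl⟩ := hπ x
      exact Ideal.Quotient.eq_zero_iff_mem.mpr (h x ((hmax x).mp hx))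
    rw [← maximalIdeal_height_eq_ringKrullDim, h1, Ideal.height_bot] at hdim
    have : (0 : ℕ) = s := by exact_mod_cast hdim
    omega
  set w := v * w₀ with hwdef
  have hwm : w ∈ maximalIdeal S := Ideal.mul_mem_right _ _ hv
  have hwP : w ∉ P := fun h => (hPp.mem_or_mem h).elim hvP hw₀
  have hkill : ∀ p ∈ P, w * p = 0 := fun p hp => by rw [hwdef, mul_assoc, hw₀' p hp, mul_zero]
  clear_value w
  obtain ⟨r, y, rfl, hy, hrad⟩ := exists_sop hdim ((hmax w).mpr hwm)
    (fun h => hwP (Ideal.Quotient.eq_zero_iff_mem.mp h))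
  choose l hl using hπ
  let I : ℕ → Ideal S := fun k =>
    P ⊔ (Ideal.span (Set.range fun i => l (y i)) ⊔ Ideal.span {w ^ (k + 1)})
  have hmap : ∀ k, (I k).map π = Ideal.span (Set.range y) ⊔ Ideal.span {π w ^ (k + 1)} := by
    intro k
    simp only [I, Ideal.map_sup, Ideal.map_span, Set.image_singleton, map_pow, ← Set.range_comp]
    rw [Ideal.map_quotient_self, bot_sup_eq]
    congr 3
    funext i
    exact hl _
  have hradI : ∀ k, (I k).radical = maximalIdeal S := by
    intro k
    refine le_antisymm ((Ideal.IsPrime.radical_le_iff inferInstance).mpr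
      (sup_le hPm (sup_le ?_ ?_))) fun x hx => ?_
    · rw [Ideal.span_le]
      rintro _ ⟨i, rfl⟩
      exact (hmax _).mp (by rw [hl]; exact hy i)
    · rw [Ideal.span_singleton_le_iff_mem]
      exact Ideal.pow_mem_of_mem _ hwm _ k.succ_pos
    · have h1 : (Ideal.span (Set.range y) ⊔ Ideal.span {π w}).radical ≤
          ((I k).map π).radical := by
        rw [hmap, Ideal.radical_le_radical_iff]
        refine sup_le (le_sup_left.trans Ideal.le_radical) ?_
        rw [Ideal.span_singleton_le_iff_mem]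
        exact ⟨k + 1, Ideal.mem_sup_right (Ideal.mem_span_singleton_self _)⟩
      obtain ⟨N, hN⟩ := h1 (hrad ((hmax x).mpr hx))
      rw [← map_pow] at hN
      exact ⟨N, (Ideal.mem_quotient_iff_mem le_sup_left).mp hN⟩
  have hup : ∀ k, ∃ C : ℕ, ∀ n, len (P ⊔ I k ^ n) ≤ (C * n ^ (r + 1) : ℕ) := by
    intro k
    obtain ⟨C, hC⟩ := ENat.ne_top_iff_exists.mp (len_ne_top (hradI k).ge)
    refine ⟨C, fun n => ?_⟩
    let Y : Option (Fin r) → S := fun o => o.elim (w ^ (k + 1)) fun i => l (y i)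
    have hY : ∀ o, Y o ∈ I k := by
      rintro (_ | i)
      · exact Ideal.mem_sup_right (Ideal.mem_sup_right (Ideal.mem_span_singleton_self _))
      · exact Ideal.mem_sup_right (Ideal.mem_sup_left (Ideal.subset_span ⟨i, rfl⟩))
    have h1 := len_sup_pows_le Y n univ P
    have h2 : len (P ⊔ Ideal.span (Y '' ((univ : Finset (Option (Fin r))) : Set _))) ≤ C := by
      rw [hC]
      refine len_anti (sup_le le_sup_left (le_trans (sup_le ?_ ?_) le_sup_right))
      · refine Ideal.span_mono ?_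
        rintro _ ⟨i, rfl⟩
        exact ⟨some i, by simp, rfl⟩
      · exact Ideal.span_mono (Set.singleton_subset_iff.mpr ⟨none, by simp, rfl⟩)
    refine (len_anti (sup_le_sup_left ?_ P)).trans (h1.trans ?_)
    · rw [Ideal.span_le]
      rintro _ ⟨o, -, rfl⟩
      exact Ideal.pow_mem_pow (hY o) n
    · refine (mul_le_mul_right h2 _).trans (le_of_eq ?_)
      simp [mul_comm]
  have hIw : ∀ k₀ k, I k₀ ≤ I k ⊔ Ideal.span {w} := by
    intro k₀ k
    refine sup_le (le_sup_left.trans le_sup_left)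
      (sup_le (le_sup_left.trans (le_sup_right.trans le_sup_left)) (le_trans ?_ le_sup_right))
    rw [Ideal.span_singleton_le_iff_mem]
    exact Ideal.pow_mem_of_mem _ (Ideal.mem_span_singleton_self w) _ k₀.succ_pos
  have hanti : ∀ k₀ k, k₀ ≤ k → I k ≤ I k₀ := fun k₀ k hk => sup_le_sup_left (sup_le_sup_left
    (Ideal.span_singleton_le_span_singleton.mpr (pow_dvd_pow w (by omega))) _) _
  refine ⟨I, hradI, fun k₀ k hk => ?_, fun k₀ => ?_⟩
  · obtain ⟨C, hC⟩ := hup k
    refine ⟨C, fun n => (len_le_add (W := P ⊔ I k ^ n) ?_).trans (add_le_add le_rfl (hC n))⟩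
    rintro x ⟨h1, h2⟩
    obtain ⟨p, hp, a, ha, rfl⟩ := Submodule.mem_sup.mp h2
    refine add_mem ?_ (le_cl _ ha)
    refine mem_cl_of_mul_eq_zero (hkill p hp) (pow_le_pow_sup (hIw k₀ k) n) ?_
    have := sub_mem h1 (le_cl _ (Ideal.pow_right_mono (hanti k₀ k hk) n ha))
    rwa [add_sub_cancel_right] at this
  · obtain ⟨C, hC⟩ := hup k₀
    refine ⟨C, fun k hk m => ?_⟩
    set n := (r + 1) * m + 1 with hn
    have hI : I k ≤ I k₀ := hanti k₀ k hk
    have h1 : len (col (cl (I k₀ ^ n)) w) ≤ (C * n ^ (r + 1) : ℕ) := by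
      refine (len_anti (sup_le (fun p hp => ?_) fun x hx => ?_)).trans (hC n)
      · rw [mem_col, hkill p hp]
        exact zero_mem _
      · exact Ideal.mul_mem_left _ _ (le_cl _ hx)
    have h2 : ((k * m ^ (r + 1) : ℕ) : ℕ∞) ≤ len (col (cl (I k ^ n)) w) := by
      have h3 := lower y (π w) (by rw [hdim]; exact_mod_cast (by simp)) hrad hy
        ((hmax w).mpr hwm) (k := k + 1) (m := m) (n := (r + 1) * m) k.succ_pos
        (by simp [add_mul])
      rw [← len_comap (A := S) _ fun x => ⟨l x, by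
        rw [show algebraMap S (S ⧸ P) (l x) = x from hl x, sub_self]; exact zero_mem _⟩] at h3
      refine le_trans ?_ (h3.trans (len_anti fun x hx => ?_))
      · simp only [Fintype.card_fin, Nat.cast_le]
        exact Nat.mul_le_mul_right _ k.le_succ
      · have h4 := map_mem_cl π (mem_col.mp hx)
        rw [Ideal.map_pow, hmap, map_mul] at h4
        exact h4
    have h3 : len (cl (I k₀ ^ n) ⊔ Ideal.span {w}) ≤ len (cl (I k ^ n) ⊔ Ideal.span {w}) :=
      len_anti (sup_le_sup_right (cl_mono (Ideal.pow_right_mono hI n)) _)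
    rw [len_eq_add (cl (I k₀ ^ n)) w, len_eq_add (cl (I k ^ n)) w]
    calc _ ≤ (C * n ^ (r + 1) : ℕ) + len (cl (I k ^ n) ⊔ Ideal.span {w}) +
          len (col (cl (I k ^ n)) w) := add_le_add (add_le_add h1 h3) h2
      _ = _ := by ring

end Pool.Agent.P.MP_e9da60_ag
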