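import Mathlib

/-! Colengths of ideals: additivity, an upper bound and a lower bound. -/

namespace Pool.Agent.P.MP_e9da60_ag

open Finset

variable {A : Type*} [CommRing A]

/-- The colength of an ideal. -/
noncomputable def len (K : Ideal A) : ℕ∞ := Module.length A (A ⧸ K)

/-- The ideal of all `x` with `y * x ∈ K`. -/
def col (K : Ideal A) (y : A) : Ideal A := Submodule.comap (LinearMap.mulLeft A y) K

theorem mem_col {K : Ideal A} {y x : A} : x ∈ col K y ↔ y * x ∈ K := Iff.rfl

theorem len_anti {K L : Ideal A} (h : K ≤ L) : len L ≤ len K := by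
  unfold len
  rw [Module.length_quotient, Module.length_quotient]
  exact Order.coheight_anti h

theorem len_top : len (⊤ : Ideal A) = 0 := by
  unfold len
  exact Module.length_eq_zero

theorem one_le_len {K : Ideal A} (h : K ≠ ⊤) : 1 ≤ len K := by
  have := Ideal.Quotient.nontrivial_iff.mpr h
  exact Order.one_le_iff_pos.mpr Module.length_pos

theorem len_eq_add (K : Ideal A) (y : A) :
    len K = len (col K y) + len (K ⊔ Ideal.span {y}) := by
  refine Module.length_eq_add_of_exact
    (Submodule.mapQ (col K y) K (LinearMap.mulLeft A y) le_rfl)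
    (Submodule.factor (le_sup_left : K ≤ K ⊔ Ideal.span {y})) ?_ ?_ ?_
  · rw [← LinearMap.ker_eq_bot, eq_bot_iff]
    intro x hx
    obtain ⟨x, rfl⟩ := Submodule.Quotient.mk_surjective _ x
    have hx' : y * x ∈ K := (Submodule.Quotient.mk_eq_zero K).mp hx
    exact (Submodule.mem_bot A).mpr ((Submodule.Quotient.mk_eq_zero _).mpr hx')
  · exact Submodule.factor_surjective _
  · intro x
    obtain ⟨x, rfl⟩ := Submodule.Quotient.mk_surjective _ x
    constructor
    · intro h
      have h' : x ∈ K ⊔ Ideal.span {y} := (Submodule.Quotient.mk_eq_zero _).mp h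
      obtain ⟨a, ha, b, hb, rfl⟩ := Submodule.mem_sup.mp h'
      obtain ⟨c, rfl⟩ := Ideal.mem_span_singleton'.mp hb
      refine ⟨Submodule.Quotient.mk c, ?_⟩
      refine (Submodule.Quotient.eq K).mpr ?_
      simpa [mul_comm] using ha
    · rintro ⟨c, hc⟩
      obtain ⟨c, rfl⟩ := Submodule.Quotient.mk_surjective _ c
      rw [← hc]
      refine (Submodule.Quotient.mk_eq_zero (K ⊔ Ideal.span {y})).mpr ?_
      exact Ideal.mem_sup_right (Ideal.mul_mem_right _ _ (Ideal.mem_span_singleton_self y))

theorem len_le_add {K L W : Ideal A} (h : L ⊓ W ≤ K) : len K ≤ len L + len W := by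
  refine (len_anti h).trans ?_
  unfold len
  rw [← Module.length_prod]
  refine Module.length_le_of_injective
    ((Submodule.factor (inf_le_left : L ⊓ W ≤ L)).prod
      (Submodule.factor (inf_le_right : L ⊓ W ≤ W))) ?_
  rw [← LinearMap.ker_eq_bot, eq_bot_iff]
  intro x hx
  obtain ⟨x, rfl⟩ := Submodule.Quotient.mk_surjective _ x
  have h1 : x ∈ L := (Submodule.Quotient.mk_eq_zero L).mp (congrArg Prod.fst hx)
  have h2 : x ∈ W := (Submodule.Quotient.mk_eq_zero W).mp (congrArg Prod.snd hx)
  exact (Submodule.mem_bot A).mpr ((Submodule.Quotient.mk_eq_zero _).mpr ⟨h1, h2⟩)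

theorem len_sup_pow_le (K : Ideal A) (y : A) (n : ℕ) :
    len (K ⊔ Ideal.span {y ^ n}) ≤ n * len (K ⊔ Ideal.span {y}) := by
  induction n with
  | zero => simp [len_top]
  | succ n ih =>
    rw [len_eq_add _ (y ^ n), Nat.cast_succ, add_mul, one_mul, add_comm]
    refine add_le_add (le_trans (len_anti ?_) ih) (len_anti ?_)
    · exact sup_le (le_sup_left.trans le_sup_left) le_sup_right
    · refine sup_le (fun x hx => ?_) ?_
      · exact mem_col.mpr (Ideal.mem_sup_left (Ideal.mul_mem_left _ _ hx))
      · rw [Ideal.span_singleton_le_iff_mem, mem_col, ← pow_succ]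
        exact Ideal.mem_sup_right (Ideal.mem_span_singleton_self _)

theorem len_sup_pows_le {ι : Type*} (y : ι → A) (n : ℕ) (s : Finset ι) (K : Ideal A) :
    len (K ⊔ Ideal.span ((fun i => y i ^ n) '' s)) ≤
      (n : ℕ∞) ^ s.card * len (K ⊔ Ideal.span (y '' s)) := by
  classical
  induction s using Finset.induction_on generalizing K with
  | empty => simp
  | insert i s hi ih =>
    rw [card_insert_of_notMem hi, coe_insert, Set.image_insert_eq, Set.image_insert_eq,
      Ideal.span_insert, Ideal.span_insert, sup_comm (Ideal.span {y i ^ n}), ← sup_assoc,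
      pow_succ', mul_assoc]
    refine (len_sup_pow_le _ _ _).trans ?_
    refine mul_le_mul_right ?_ _
    rw [sup_assoc, sup_comm (Ideal.span _) (Ideal.span {y i}), ← sup_assoc, ← sup_assoc]
    exact ih _

/-- Lower bound for a colength by a family of elements that is independent weight by weight. -/
theorem card_le_len {ι : Type*} (z : ι → A) (wt : ι → ℕ) (T : Finset ι) (K : Ideal A)
    (h : ∀ a ∈ T, z a ∉ K ⊔ Ideal.span (z '' {b | b ∈ T ∧ b ≠ a ∧ wt a ≤ wt b})) :
    (T.card : ℕ∞) ≤ len K := by
  classical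
  induction T using Finset.strongInduction generalizing K with
  | H T ih =>
    rcases T.eq_empty_or_nonempty with rfl | hT
    · simp
    obtain ⟨a, ha, hmax⟩ := T.exists_max_image wt hT
    have h1 : col K (z a) ≠ ⊤ := by
      intro e
      have : (1 : A) ∈ col K (z a) := by rw [e]; trivial
      rw [mem_col, mul_one] at this
      exact h a ha (Ideal.mem_sup_left this)
    have h2 := ih (T.erase a) (erase_ssubset ha) (K ⊔ Ideal.span {z a}) (by
      intro b hb hb'
      obtain ⟨hba, hbT⟩ := mem_erase.mp hb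
      refine h b hbT (SetLike.le_def.mp (sup_le (sup_le le_sup_left ?_) ?_) hb')
      · refine le_trans (Ideal.span_mono ?_) le_sup_right
        rw [Set.singleton_subset_iff]
        exact ⟨a, ⟨ha, hba.symm, hmax b hbT⟩, rfl⟩
      · refine le_trans (Ideal.span_mono (Set.image_mono ?_)) le_sup_right
        rintro c ⟨h1, h2, h3⟩
        exact ⟨mem_of_mem_erase h1, h2, h3⟩)
    rw [len_eq_add K (z a), ← card_erase_add_one ha, Nat.cast_succ, add_comm]
    exact add_le_add (one_le_len h1) h2

theorem len_ne_top [IsNoetherianRing A] [IsLocalRing A] {K : Ideal A}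
    (h : IsLocalRing.maximalIdeal A ≤ K.radical) : len K ≠ ⊤ := by
  obtain ⟨s, hs⟩ := IsNoetherian.noetherian (IsLocalRing.maximalIdeal A)
  obtain ⟨N, hN⟩ := Ideal.exists_pow_le_of_le_radical_of_fg h ⟨s, hs⟩
  have h1 := len_sup_pows_le (id : A → A) N s ⊥
  have h2 : len (IsLocalRing.maximalIdeal A) = 1 := by
    have : IsSimpleModule A (A ⧸ IsLocalRing.maximalIdeal A) :=
      isSimpleModule_iff_isCoatom.mpr (IsLocalRing.maximalIdeal.isMaximal A).out
    exact Module.length_eq_one _ _
  have h3 : Ideal.span (id '' (s : Set A)) = IsLocalRing.maximalIdeal A := by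
    rw [Set.image_id]
    exact hs
  rw [h3, bot_sup_eq, bot_sup_eq, h2, mul_one] at h1
  refine ne_top_of_le_ne_top ?_ ((len_anti ?_).trans h1)
  · exact_mod_cast ENat.natCast_ne_top (N ^ s.card)
  · rw [Ideal.span_le]
    rintro _ ⟨g, hg, rfl⟩
    refine hN (Ideal.pow_mem_pow ?_ N)
    rw [← hs]
    exact Ideal.subset_span hg

/-- The colength does not change under a map that is bijective on the quotients. -/
theorem len_comap {B : Type*} [CommRing B] [Algebra A B] (L : Ideal B)
    (h : ∀ x : B, ∃ r : A, x - algebraMap A B r ∈ L) :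
    len (L.comap (algebraMap A B)) = len L := by
  have hs : Function.Surjective (algebraMap A (B ⧸ L)) := by
    intro x
    obtain ⟨x, rfl⟩ := Ideal.Quotient.mk_surjective x
    obtain ⟨r, hr⟩ := h x
    exact ⟨r, (Ideal.Quotient.eq.mpr hr).symm⟩
  unfold len
  rw [Module.length_eq_of_surjective (S := B) (R := B ⧸ L) Ideal.Quotient.mk_surjective,
    ← Module.length_eq_of_surjective (S := A) (R := B ⧸ L) hs]
  have hk : LinearMap.ker (Algebra.linearMap A (B ⧸ L)) = L.comap (algebraMap A B) := by
    ext r
    exact Ideal.Quotient.eq_zero_iff_mem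
  rw [← hk]
  exact (LinearMap.quotKerEquivOfSurjective (Algebra.linearMap A (B ⧸ L)) hs).length_eq

end Pool.Agent.P.MP_e9da60_ag
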