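import Pool.Agent.P.MP_e9da60_ag.Cl
import Pool.Agent.P.MP_e9da60_ag.Len

/-! Weighted independence of a system of parameters modulo integral closure. -/

namespace Pool.Agent.P.MP_e9da60_ag

open Finset IsLocalRing MvPolynomial

variable {D : Type} [CommRing D] [IsLocalRing D] {σ : Type} [Fintype σ]

/-- The extension of the maximal ideal to the polynomial ring. -/
noncomputable def bigM (σ D : Type) [CommRing D] [IsLocalRing D] : Ideal (MvPolynomial σ D) :=
  RingHom.ker (MvPolynomial.map (σ := σ) (residue D))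

omit [Fintype σ] in
theorem bigM_prime : (bigM σ D).IsPrime := RingHom.ker_isPrime _

omit [Fintype σ] in
theorem C_mem_bigM {x : D} : (C x : MvPolynomial σ D) ∈ bigM σ D ↔ x ∈ maximalIdeal D := by
  rw [bigM, RingHom.mem_ker, map_C, C_eq_zero, residue_eq_zero_iff]

theorem exists_prime [IsNoetherianRing D] (y : σ → D) (w : D)
    (hdim : ((Fintype.card σ : ℕ) : WithBot ℕ∞) < ringKrullDim D)
    (hrad : maximalIdeal D ≤ (Ideal.span (Set.range y) ⊔ Ideal.span {w}).radical)
    (hy : ∀ i, y i ∈ maximalIdeal D) (hw : w ∈ maximalIdeal D) {k : ℕ} (hk : 0 < k) :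
    ∃ q : Ideal (MvPolynomial σ D), q.IsPrime ∧ q ≤ bigM σ D ∧
      (∀ i, C (y i) - X i * C w ^ k ∈ q) ∧ C w ∉ q := by
  classical
  have hM := bigM_prime (σ := σ) (D := D)
  let g : σ → MvPolynomial σ D := fun i => C (y i) - X i * C w ^ k
  have hle : Ideal.span ((univ.image g : Finset _) : Set (MvPolynomial σ D)) ≤ bigM σ D := by
    rw [Ideal.span_le]
    intro x hx
    obtain ⟨i, -, rfl⟩ := mem_image.mp hx
    exact sub_mem (C_mem_bigM.mpr (hy i))
      (Ideal.mul_mem_left _ _ (Ideal.pow_mem_of_mem _ (C_mem_bigM.mpr hw) _ hk))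
  obtain ⟨q, hq, hqM⟩ := Ideal.exists_minimalPrimes_le hle
  have hqp : q.IsPrime := hq.1.1
  have hg : ∀ i, g i ∈ q := fun i =>
    hq.1.2 (Ideal.subset_span (mem_image_of_mem g (mem_univ i)))
  refine ⟨q, hqp, hqM, hg, fun hwq => ?_⟩
  have h1 : q.height ≤ Fintype.card σ :=
    (Ideal.height_le_card_of_mem_minimalPrimes_span_finset hq).trans
      (by exact_mod_cast card_image_le)
  have h2 : bigM σ D ≤ q := by
    rw [bigM, MvPolynomial.ker_map, ker_residue, Ideal.map_le_iff_le_comap]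
    refine hrad.trans ((Ideal.IsPrime.radical_le_iff (hqp.comap _)).mpr (sup_le ?_ ?_))
    · rw [Ideal.span_le]
      rintro _ ⟨i, rfl⟩
      have := add_mem (hg i) (Ideal.mul_mem_left _ (X i) (Ideal.pow_mem_of_mem _ hwq _ hk))
      simpa [g] using this
    · rw [Ideal.span_singleton_le_iff_mem]
      exact hwq
  have h3 : (bigM σ D).LiesOver (maximalIdeal D) := ⟨by
    ext x
    exact C_mem_bigM.symm⟩
  have h4 := Ideal.height_eq_height_add_of_liesOver_of_hasGoingDown (maximalIdeal D) (bigM σ D)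
  have h5 : (maximalIdeal D).height ≤ Fintype.card σ := by
    refine le_trans ?_ h1
    rw [le_antisymm hqM h2, h4]
    exact le_self_add
  rw [← maximalIdeal_height_eq_ringKrullDim] at hdim
  exact absurd (by exact_mod_cast h5) (not_le.mpr hdim)

omit [IsLocalRing D] in
theorem prod_X_pow (α : σ → ℕ) : (∏ i, X i ^ α i : MvPolynomial σ D) =
    monomial (Finsupp.equivFunOnFinite.symm α) 1 := by
  rw [monomial_eq, Finsupp.prod_fintype _ _ (by simp)]
  simp

theorem lower [IsNoetherianRing D] (y : σ → D) (w : D)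
    (hdim : ((Fintype.card σ : ℕ) : WithBot ℕ∞) < ringKrullDim D)
    (hrad : maximalIdeal D ≤ (Ideal.span (Set.range y) ⊔ Ideal.span {w}).radical)
    (hy : ∀ i, y i ∈ maximalIdeal D) (hw : w ∈ maximalIdeal D) {k m n : ℕ} (hk : 0 < k)
    (hn : Fintype.card σ * m + m ≤ n) :
    ((k * m ^ (Fintype.card σ + 1) : ℕ) : ℕ∞) ≤
      len (col (cl ((Ideal.span (Set.range y) ⊔ Ideal.span {w ^ k}) ^ (n + 1))) w) := by
  classical
  obtain ⟨q, hq, hqM, hg, hwq⟩ := exists_prime y w hdim hrad hy hw hk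
  have hM := bigM_prime (σ := σ) (D := D)
  let φ : D →+* MvPolynomial σ D ⧸ q := (Ideal.Quotient.mk q).comp C
  let N : Ideal (MvPolynomial σ D ⧸ q) := (bigM σ D).map (Ideal.Quotient.mk q)
  have hN : N.IsPrime := Ideal.map_isPrime_of_surjective Ideal.Quotient.mk_surjective
    (by rwa [Ideal.mk_ker])
  have hmemN : ∀ g, Ideal.Quotient.mk q g ∈ N ↔ g ∈ bigM σ D := fun g =>
    Ideal.mem_quotient_iff_mem hqM
  have ht : φ w ∈ N := (hmemN _).mpr (C_mem_bigM.mpr hw)
  have ht0 : φ w ≠ 0 := fun h => hwq (Ideal.Quotient.eq_zero_iff_mem.mp h)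
  have hφy : ∀ i, φ (y i) = Ideal.Quotient.mk q (X i) * φ w ^ k := fun i =>
    Ideal.Quotient.eq.mpr (hg i)
  let z : (σ → ℕ) × ℕ → D := fun a => (∏ i, y i ^ a.1 i) * w ^ a.2
  let wt : (σ → ℕ) × ℕ → ℕ := fun a => k * (∑ i, a.1 i) + a.2
  have hφz : ∀ a, φ (z a) = φ w ^ wt a *
      Ideal.Quotient.mk q (monomial (Finsupp.equivFunOnFinite.symm a.1) 1) := by
    intro a
    simp only [z, wt, map_mul, map_prod, map_pow, hφy, mul_pow, prod_mul_distrib, ← prod_X_pow,
      prod_pow_eq_pow_sum, pow_add, pow_mul]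
    ring
  let T : Finset ((σ → ℕ) × ℕ) := (Fintype.piFinset fun _ => range m) ×ˢ range (k * m)
  have hT : T.card = k * m ^ (Fintype.card σ + 1) := by
    simp only [T, card_product, Fintype.card_piFinset, card_range, prod_const, card_univ]
    ring
  rw [← hT]
  refine card_le_len z wt T _ fun a ha hmem => ?_
  have hwt : wt a + 1 < k * (n + 1) := by
    obtain ⟨h1, h2⟩ := mem_product.mp ha
    have h3 : ∑ i, a.1 i ≤ Fintype.card σ * m := by
      have := sum_le_card_nsmul univ a.1 m fun i _ =>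
        (mem_range.mp (Fintype.mem_piFinset.mp h1 i)).le
      simpa using this
    have h4 := mem_range.mp h2
    have h5 : k * (∑ i, a.1 i) ≤ k * (Fintype.card σ * m) := Nat.mul_le_mul_left k h3
    have h6 : k * (Fintype.card σ * m + m) ≤ k * n := Nat.mul_le_mul_left k hn
    simp only [wt]
    nlinarith
  let α := Finsupp.equivFunOnFinite.symm a.1
  let Z : Ideal D :=
    { carrier := {x | ∃ g : MvPolynomial σ D, coeff α g ∈ maximalIdeal D ∧
        φ x = φ w ^ wt a * Ideal.Quotient.mk q g}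
      zero_mem' := ⟨0, by simp, by simp⟩
      add_mem' := by
        rintro x x' ⟨g, h1, h2⟩ ⟨g', h1', h2'⟩
        exact ⟨g + g', by rw [coeff_add]; exact add_mem h1 h1', by
          rw [map_add, h2, h2', map_add, mul_add]⟩
      smul_mem' := by
        rintro r x ⟨g, h1, h2⟩
        refine ⟨C r * g, by rw [coeff_C_mul]; exact Ideal.mul_mem_left _ _ h1, ?_⟩
        rw [smul_eq_mul, map_mul, h2, map_mul, mul_left_comm]
        rfl }
  have hZ : Ideal.span (z '' {b | b ∈ T ∧ b ≠ a ∧ wt a ≤ wt b}) ≤ Z := by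
    rw [Ideal.span_le]
    rintro _ ⟨b, ⟨-, hba, hle⟩, rfl⟩
    obtain ⟨r, hr⟩ := Nat.exists_eq_add_of_le hle
    refine ⟨C (w ^ r) * monomial (Finsupp.equivFunOnFinite.symm b.1) 1, ?_, ?_⟩
    · rw [coeff_C_mul, coeff_monomial]
      split_ifs with h
      · have h1 : b.1 = a.1 := Finsupp.equivFunOnFinite.symm.injective h
        have h2 : r ≠ 0 := by
          rintro rfl
          refine hba (Prod.ext h1 ?_)
          simp only [wt, h1] at hr
          omega
        exact Ideal.mul_mem_right _ _ (Ideal.pow_mem_of_mem _ hw _ (Nat.pos_of_ne_zero h2))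
      · simp
    · rw [hφz, hr, pow_add, map_mul, map_pow, map_pow, mul_assoc]
      rfl
  obtain ⟨κ, hκ, x, hx, e⟩ := Submodule.mem_sup.mp hmem
  obtain ⟨g, hg1, hg2⟩ := hZ hx
  have hu : Ideal.Quotient.mk q (monomial α 1 - g) ∉ N := by
    rw [hmemN, bigM, RingHom.mem_ker]
    intro h
    have h1 := congrArg (coeff α) h
    rw [coeff_map, coeff_zero, residue_eq_zero_iff, coeff_sub, coeff_monomial, if_pos rfl] at h1
    have h2 := add_mem h1 hg1
    rw [sub_add_cancel] at h2
    exact (maximalIdeal.isMaximal D).ne_top ((Ideal.eq_top_iff_one _).mpr h2)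
  refine not_mem_cl_span_pow ht ht0 hu hwt ?_
  have h1 : φ (w * κ) = φ w ^ (wt a + 1) * Ideal.Quotient.mk q (monomial α 1 - g) := by
    rw [map_mul, eq_sub_of_add_eq e, map_sub, hφz, hg2, map_sub]
    ring
  rw [← h1]
  refine cl_mono ?_ (map_mem_cl φ (mem_col.mp hκ))
  suffices H : (Ideal.span (Set.range y) ⊔ Ideal.span {w ^ k}) ≤
      (Ideal.span {φ w ^ k}).comap φ by
    rw [Ideal.map_pow, pow_mul, ← Ideal.span_singleton_pow (φ w ^ k)]
    exact Ideal.pow_right_mono (Ideal.map_le_iff_le_comap.mpr H) (n + 1)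
  apply sup_le
  · rw [Ideal.span_le]
    rintro _ ⟨i, rfl⟩
    change φ (y i) ∈ Ideal.span {φ w ^ k}
    rw [hφy]
    exact Ideal.mul_mem_left _ _ (Ideal.mem_span_singleton_self _)
  · rw [Ideal.span_singleton_le_iff_mem, Ideal.mem_comap, map_pow]
    exact Ideal.mem_span_singleton_self _

end Pool.Agent.P.MP_e9da60_ag
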