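import Mathlib

/-! Comparison of the two top coefficients of a polynomial in the binomial basis. -/

namespace Pool.Agent.P.MP_e9da60_ag

open Finset Filter Topology

theorem tendsto_add_div (c : ℝ) : Tendsto (fun n : ℕ => ((n : ℝ) + c) / n) atTop (𝓝 1) := by
  have h := (tendsto_const_div_atTop_nhds_zero_nat c).const_add 1
  rw [add_zero] at h
  refine h.congr' ?_
  filter_upwards [eventually_gt_atTop 0] with n hn
  have : (n : ℝ) ≠ 0 := by positivity
  field_simp

theorem tendsto_choose_div (j : ℕ) :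
    Tendsto (fun n : ℕ => (((n + j).choose j : ℕ) : ℝ) / n ^ j) atTop (𝓝 (1 / j.factorial)) := by
  induction j with
  | zero => simp
  | succ j ih =>
    have h := (ih.mul (tendsto_add_div (j + 1))).div_const (j + 1 : ℝ)
    have e : (1 : ℝ) / j.factorial * 1 / (j + 1) = 1 / (j + 1).factorial := by
      rw [Nat.factorial_succ]
      push_cast
      field_simp
    rw [e] at h
    refine h.congr' ?_
    filter_upwards [eventually_gt_atTop 0] with n hn
    have h0 : (n : ℝ) ≠ 0 := by positivity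
    have h1 : (((n + j + 1) * (n + j).choose j : ℕ) : ℝ) =
        (((n + j + 1).choose (j + 1) * (j + 1) : ℕ) : ℝ) := by
      rw [Nat.add_one_mul_choose_eq]
    push_cast at h1
    rw [← add_assoc n j 1, pow_succ]
    field_simp
    linear_combination h1

theorem tendsto_choose_div_lt {j r : ℕ} (h : j < r) :
    Tendsto (fun n : ℕ => (((n + j).choose j : ℕ) : ℝ) / n ^ r) atTop (𝓝 0) := by
  obtain ⟨c, rfl⟩ := Nat.exists_eq_add_of_lt h
  have h1 : Tendsto (fun n : ℕ => (1 / (n : ℝ)) ^ (c + 1)) atTop (𝓝 0) := by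
    simpa using (tendsto_one_div_atTop_nhds_zero_nat (𝕜 := ℝ)).pow (c + 1)
  have h2 := (tendsto_choose_div j).mul h1
  rw [mul_zero] at h2
  refine h2.congr fun n => ?_
  rw [add_assoc j c 1, pow_add (n : ℝ) j, one_div, inv_pow, div_eq_mul_inv, div_eq_mul_inv,
    mul_inv, mul_assoc]

theorem poly_cmp (s : ℕ) (δ : ℕ → ℝ) (F : Filter ℕ) [F.NeBot] (hF : F ≤ atTop) (a b c : ℝ)
    (D : ℕ → ℝ) (hD : ∀ᶠ n in atTop, D n = ∑ i ∈ range (s + 1 + 1),
      (-1 : ℝ) ^ i * δ i * (((n + (s + 1) - i).choose (s + 1 - i) : ℕ) : ℝ))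
    (hup : ∀ᶠ n : ℕ in F, D n ≤ b * ((n : ℝ) + 1) ^ s)
    (hlow : ∀ᶠ n : ℕ in F, a * (n : ℝ) ^ s - c * ((n : ℝ) + 1) ^ s ≤ D n) :
    δ 0 = 0 ∧ δ 1 ≤ s.factorial * (c - a) := by
  let R : ℕ → ℝ := fun n => ∑ i ∈ range s,
    (-1 : ℝ) ^ (i + 1 + 1) * δ (i + 1 + 1) * (((n + (s - 1 - i)).choose (s - 1 - i) : ℕ) : ℝ)
  have hD' : ∀ᶠ n in atTop, D n = δ 0 * (((n + (s + 1)).choose (s + 1) : ℕ) : ℝ) -
      δ 1 * (((n + s).choose s : ℕ) : ℝ) + R n := by
    filter_upwards [hD] with n hn
    rw [hn, sum_range_succ', sum_range_succ']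
    have : ∀ i ∈ range s, (-1 : ℝ) ^ (i + 1 + 1) * δ (i + 1 + 1) *
        (((n + (s + 1) - (i + 1 + 1)).choose (s + 1 - (i + 1 + 1)) : ℕ) : ℝ) =
        (-1 : ℝ) ^ (i + 1 + 1) * δ (i + 1 + 1) *
          (((n + (s - 1 - i)).choose (s - 1 - i) : ℕ) : ℝ) := by
      intro i hi
      have := mem_range.mp hi
      rw [show n + (s + 1) - (i + 1 + 1) = n + (s - 1 - i) by omega,
        show s + 1 - (i + 1 + 1) = s - 1 - i by omega]
    rw [sum_congr rfl this, show n + (s + 1) - (0 + 1) = n + s by omega]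
    simp only [R, zero_add, Nat.add_sub_cancel, Nat.sub_zero]
    ring
  have hR : ∀ r, s ≤ r → Tendsto (fun n : ℕ => R n / n ^ r) atTop (𝓝 0) := by
    intro r hr
    simp only [R, sum_div, mul_div_assoc]
    rw [← sum_const_zero (s := range s)]
    refine tendsto_finsetSum _ fun i hi => ?_
    have := mem_range.mp hi
    simpa using (tendsto_choose_div_lt (show s - 1 - i < r by omega)).const_mul
      ((-1 : ℝ) ^ (i + 1 + 1) * δ (i + 1 + 1))
  have hq : Tendsto (fun n : ℕ => ((n : ℝ) + 1) ^ s / n ^ s) atTop (𝓝 1) := by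
    simpa [div_pow] using (tendsto_add_div 1).pow s
  have hq' : Tendsto (fun n : ℕ => ((n : ℝ) + 1) ^ s / n ^ (s + 1)) atTop (𝓝 0) := by
    have := hq.mul tendsto_one_div_atTop_nhds_zero_nat
    rw [mul_zero] at this
    refine this.congr fun n => ?_
    rw [pow_succ, div_mul_div_comm, mul_one]
  have hq'' : Tendsto (fun n : ℕ => (n : ℝ) ^ s / n ^ (s + 1)) atTop (𝓝 0) := by
    refine tendsto_one_div_atTop_nhds_zero_nat.congr' ?_
    filter_upwards [eventually_gt_atTop 0] with n hn
    have h0 : (n : ℝ) ≠ 0 := by positivity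
    rw [pow_succ]
    field_simp
  have h1 : Tendsto (fun n : ℕ => D n / n ^ (s + 1)) atTop (𝓝 (δ 0 * (1 / (s + 1).factorial))) := by
    have := (((tendsto_choose_div (s + 1)).const_mul (δ 0)).sub
      ((tendsto_choose_div_lt (lt_add_one s)).const_mul (δ 1))).add (hR (s + 1) s.le_succ)
    rw [mul_zero, sub_zero, add_zero] at this
    refine this.congr' ?_
    filter_upwards [hD'] with n hn
    rw [hn]
    ring
  have h2 : δ 0 = 0 := by
    have e1 : δ 0 * (1 / (s + 1).factorial) ≤ b * 0 := by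
      refine le_of_tendsto_of_tendsto (h1.mono_left hF) ((hq'.const_mul b).mono_left hF) ?_
      filter_upwards [hup] with n hn
      rw [← mul_div_assoc]
      exact div_le_div_of_nonneg_right hn (by positivity)
    have e2 : a * 0 - c * 0 ≤ δ 0 * (1 / (s + 1).factorial) := by
      refine le_of_tendsto_of_tendsto (((hq''.const_mul a).sub (hq'.const_mul c)).mono_left hF)
        (h1.mono_left hF) ?_
      filter_upwards [hlow] with n hn
      rw [← mul_div_assoc, ← mul_div_assoc, ← sub_div]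
      exact div_le_div_of_nonneg_right hn (by positivity)
    have e3 : δ 0 * (1 / (s + 1).factorial) = 0 := by linarith
    exact (mul_eq_zero.mp e3).resolve_right (by positivity)
  have h3 : Tendsto (fun n : ℕ => D n / n ^ s) atTop (𝓝 (-(δ 1 * (1 / s.factorial)))) := by
    have := (((tendsto_choose_div s).const_mul (δ 1)).neg).add (hR s le_rfl)
    rw [add_zero] at this
    refine this.congr' ?_
    filter_upwards [hD'] with n hn
    rw [hn, h2]
    ring
  have e4 : a - c * 1 ≤ -(δ 1 * (1 / s.factorial)) := by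
    refine le_of_tendsto_of_tendsto (((hq.const_mul c).const_sub a).mono_left hF)
      (h3.mono_left hF) ?_
    filter_upwards [hlow, hF (eventually_gt_atTop 0)] with n hn hn0
    have h0 : (0 : ℝ) < (n : ℝ) ^ s := by positivity
    rw [le_div_iff₀ h0, sub_mul, mul_assoc, div_mul_cancel₀ _ h0.ne']
    exact hn
  have h5 : (0 : ℝ) < s.factorial := by positivity
  rw [mul_one_div, le_neg, div_le_iff₀ h5] at e4
  exact ⟨h2, by linarith⟩

end Pool.Agent.P.MP_e9da60_ag
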