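import Pool.Agent.P.MP_e9da60_ag.Core
import Pool.Agent.P.MP_e9da60_ag.Poly
import Pool.Agent.P.MP_e9da60_ag.Compl

/-! Transfer from the completion and the final comparison. -/

namespace Pool.Agent.P.MP_e9da60_ag

open Finset Filter IsLocalRing

theorem len_transfer {R S : Type} [CommRing R] [CommRing S] [Algebra R S] [IsLocalRing R]
    [IsLocalRing S] [IsNoetherianRing S]
    (hm : maximalIdeal S = (maximalIdeal R).map (algebraMap R S))
    (hf : ∀ K : Ideal R, (K.map (algebraMap R S)).comap (algebraMap R S) = K)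
    (hd : ∀ (n : ℕ) (x : S), ∃ r : R, x - algebraMap R S r ∈ maximalIdeal S ^ n)
    {I : Ideal S} (hI : I.radical = maximalIdeal S) (n : ℕ) :
    len (cl (I.comap (algebraMap R S) ^ n)) = len (cl (I ^ n)) := by
  obtain ⟨N, hN⟩ := Ideal.exists_pow_le_of_le_radical_of_fg hI.ge
    (maximalIdeal S).fg_of_isNoetherianRing
  have h1 : (I.comap (algebraMap R S)).map (algebraMap R S) = I := by
    refine le_antisymm Ideal.map_comap_le fun x hx => ?_
    obtain ⟨r, hr⟩ := hd N x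
    have h2 : maximalIdeal S ^ N ≤ (I.comap (algebraMap R S)).map (algebraMap R S) := by
      rw [hm, ← Ideal.map_pow]
      refine Ideal.map_mono ?_
      rw [← Ideal.map_le_iff_le_comap, Ideal.map_pow, ← hm]
      exact hN
    have h3 : algebraMap R S r ∈ I := by
      have := sub_mem hx (hN hr)
      rwa [sub_sub_cancel] at this
    have := add_mem (h2 hr) (Ideal.mem_map_of_mem _ (Ideal.mem_comap.mpr h3))
    rwa [sub_add_cancel] at this
  have h2 : (I.comap (algebraMap R S) ^ n).map (algebraMap R S) = I ^ n := by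
    rw [Ideal.map_pow, h1]
  rw [← len_comap (A := R) (cl (I ^ n)) fun x => ?_]
  · congr 1
    ext x
    rw [Ideal.mem_comap, ← h2]
    exact ⟨map_mem_cl _, mem_cl_of_map _ hf⟩
  · obtain ⟨r, hr⟩ := hd (N * n) x
    rw [pow_mul] at hr
    exact ⟨r, le_cl _ (Ideal.pow_right_mono hN n hr)⟩

/-- The eventual polynomial formula for a sequence of lengths. -/
def Fits (d : ℕ) (H : ℕ → ℕ∞) (e : ℕ → ℚ) : Prop :=
  ∀ᶠ n in atTop, ∃ m : ℕ, H n = (m : ℕ∞) ∧
    (m : ℚ) = ∑ i ∈ range (d + 1), (-1 : ℚ) ^ i * e i * (((n + d - i).choose (d - i) : ℕ) : ℚ)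

theorem unbounded {s : ℕ} (hs : 0 < s) (H : ℕ → ℕ → ℕ∞)
    (hup : ∀ k₀ k, k₀ ≤ k → ∃ C : ℕ, ∀ n, H k n ≤ H k₀ n + (C * (n + 1) ^ s : ℕ))
    (hlow : ∀ k₀, ∃ C : ℕ, ∀ k, k₀ ≤ k → ∀ m,
      H k₀ (s * m) + (k * m ^ s : ℕ) ≤ H k (s * m) + (C * (s * m + 1) ^ s : ℕ)) :
    ∃ E : ℚ, ∀ N : ℚ, ∃ k, ∀ e, Fits (s + 1) (H k) e → e 0 = E ∧ e 1 ≤ N := by
  by_cases h0 : ∃ k₀ e₀, Fits (s + 1) (H k₀) e₀
  swap
  · exact ⟨0, fun _ => ⟨0, fun e he => absurd ⟨0, e, he⟩ h0⟩⟩
  obtain ⟨k₀, e₀, he₀⟩ := h0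
  refine ⟨e₀ 0, fun N => ?_⟩
  obtain ⟨C, hC⟩ := hlow k₀
  obtain ⟨k₁, hk₁⟩ := exists_nat_ge (((s : ℝ) ^ s) * (C + |(e₀ 1 : ℝ) - N|))
  refine ⟨max k₀ k₁, fun e he => ?_⟩
  set k := max k₀ k₁ with hk
  obtain ⟨B, hB⟩ := hup k₀ k (le_max_left _ _)
  have hsp : (0 : ℝ) < (s : ℝ) ^ s := by positivity
  have ht : Tendsto (fun m => s * m) atTop atTop :=
    tendsto_atTop_mono (fun m => Nat.le_mul_of_pos_left m hs) tendsto_id
  have hboth := he.and he₀
  obtain ⟨key0, key⟩ := poly_cmp s (fun i => (e i : ℝ) - e₀ i) (map (fun m => s * m) atTop) ht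
    (k / (s : ℝ) ^ s) B C (fun n => ((H k n).toNat : ℝ) - (H k₀ n).toNat) (by
      filter_upwards [hboth] with n ⟨⟨a, ha, ha'⟩, b, hb, hb'⟩
      have h1 := congrArg (Rat.cast : ℚ → ℝ) ha'
      have h2 := congrArg (Rat.cast : ℚ → ℝ) hb'
      push_cast at h1 h2
      rw [ha, hb, ENat.toNat_natCast, ENat.toNat_natCast, h1, h2, ← sum_sub_distrib]
      exact sum_congr rfl fun i _ => by ring) (by
      filter_upwards [ht hboth] with n ⟨⟨a, ha, _⟩, b, hb, _⟩
      have h1 := hB n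
      rw [ha, hb] at h1
      have h2 : a ≤ b + B * (n + 1) ^ s := by exact_mod_cast h1
      have h3 : (a : ℝ) ≤ b + B * (n + 1) ^ s := by exact_mod_cast h2
      rw [ha, hb, ENat.toNat_natCast, ENat.toNat_natCast]
      linarith) (by
      rw [eventually_map]
      filter_upwards [ht.eventually hboth] with m ⟨⟨a, ha, _⟩, b, hb, _⟩
      have h1 := hC k (le_max_left _ _) m
      rw [ha, hb] at h1
      have h2 : b + k * m ^ s ≤ a + C * (s * m + 1) ^ s := by exact_mod_cast h1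
      have h3 : (b : ℝ) + k * m ^ s ≤ a + C * (s * m + 1) ^ s := by exact_mod_cast h2
      rw [ha, hb, ENat.toNat_natCast, ENat.toNat_natCast]
      push_cast
      rw [mul_pow, ← mul_assoc, div_mul_cancel₀ _ hsp.ne']
      linarith)
  have h1 : (C : ℝ) + |(e₀ 1 : ℝ) - N| ≤ k / (s : ℝ) ^ s := by
    rw [le_div_iff₀ hsp, mul_comm]
    exact hk₁.trans (by exact_mod_cast le_max_right k₀ k₁)
  have h2 : (1 : ℝ) ≤ s.factorial := by exact_mod_cast s.factorial_pos
  have h3 := le_abs_self ((e₀ 1 : ℝ) - N)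
  have h4 := abs_nonneg ((e₀ 1 : ℝ) - N)
  have h5 : (e 1 : ℝ) ≤ N := by nlinarith
  exact ⟨by exact_mod_cast sub_eq_zero.mp key0, by exact_mod_cast h5⟩

theorem main (R : Type) [CommRing R] [IsNoetherianRing R] [IsLocalRing R]
    [IsReduced (AdicCompletion (maximalIdeal R) R)] {d : ℕ} (hd : ringKrullDim R = d)
    (hd0 : 0 < d) {P : Ideal (AdicCompletion (maximalIdeal R) R)}
    (hP : P ∈ minimalPrimes (AdicCompletion (maximalIdeal R) R))
    (hdim : ringKrullDim (AdicCompletion (maximalIdeal R) R ⧸ P) = (d - 1 : ℕ)) :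
    ∃ E : ℚ, ∀ N : ℚ, ∃ I : Ideal R, I.radical = maximalIdeal R ∧
      ∀ e, Fits d (fun n => len (cl (I ^ (n + 1)))) e → e 0 = E ∧ e 1 ≤ N := by
  have := noeth_compl R
  set S := AdicCompletion (maximalIdeal R) R
  have : Module.FaithfullyFlat R S := Module.FaithfullyFlat.of_flat_of_isLocalHom
  have hf : ∀ K : Ideal R, (K.map (algebraMap R S)).comap (algebraMap R S) = K :=
    fun K => Ideal.comap_map_eq_self_of_faithfullyFlat K
  have hm : maximalIdeal S = (maximalIdeal R).map (algebraMap R S) :=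
    AdicCompletion.maximalIdeal_eq_map
  obtain ⟨s, rfl⟩ : ∃ s, d = s + 1 := ⟨d - 1, by omega⟩
  rw [Nat.add_sub_cancel] at hdim
  have hs : 0 < s := by
    refine Nat.pos_of_ne_zero ?_
    rintro rfl
    have hPp : P.IsPrime := hP.1.1
    have : Ring.KrullDimLE 0 (S ⧸ P) := Ring.krullDimLE_iff.mpr hdim.le
    have h1 : P = maximalIdeal S :=
      eq_maximalIdeal (Ideal.Quotient.maximal_of_isField P Ring.KrullDimLE.isField_of_isDomain)
    obtain ⟨w, hw, hw'⟩ := exists_killer hP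
    have hu : IsUnit w := notMem_maximalIdeal.mp (h1 ▸ hw)
    have h2 : maximalIdeal R = ⊥ := by
      rw [← hf (maximalIdeal R), ← hf ⊥, ← hm, ← h1, Ideal.map_bot]
      congr 1
      exact eq_bot_iff.mpr fun p hp => hu.mul_right_eq_zero.mp (hw' p hp)
    rw [← maximalIdeal_height_eq_ringKrullDim, h2, Ideal.height_bot] at hd
    exact absurd hd (by decide)
  obtain ⟨I, hI, hup, hlow⟩ := core hP hs hdim
  obtain ⟨E, hE⟩ := unbounded hs (fun k n => len (cl (I k ^ (n + 1))))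
    (fun k₀ k h => (hup k₀ k h).imp fun C hC n => hC (n + 1)) hlow
  refine ⟨E, fun N => ?_⟩
  obtain ⟨k, hk⟩ := hE N
  refine ⟨(I k).comap (algebraMap R S), ?_, fun e he => hk e ?_⟩
  · rw [← Ideal.comap_radical, hI, hm, hf]
  · simpa only [len_transfer hm hf (dense_compl R) (hI k)] using he

end Pool.Agent.P.MP_e9da60_ag
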